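import Pool.Agent.MP_6357da_an.H81.Cascade
import Pool.Agent.MP_6357da_an.H36.FlowUpper
import Pool.Agent.MP_6357da_an.H67.Lower

/-! The full answer: both suprema, and both are attained. -/

set_option autoImplicit false

open Pool.Agent.MP_6357da_an.H27

namespace Pool.Agent.Results.MP_6357da_an.Answer

theorem result (m : ℕ) (hm : 1 ≤ m) :
    IsGreatest {d | ∃ g, IsCascade m g ∧ d = dimH (trapped g)} 2 ∧
    IsGreatest {d | ∃ g, IsFlow m g ∧ d = dimH (trapped g)} (1 + 2 / ((m : ENNReal) + 1)) := by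
  refine ⟨⟨?_, ?_⟩, ?_, ?_⟩
  · obtain ⟨g, hg, h⟩ := Pool.Agent.MP_6357da_an.H81.cascade_two m
    exact ⟨g, hg, h.symm⟩
  · rintro d ⟨g, -, rfl⟩
    have := dimH_mono (Set.subset_univ (trapped g))
    rw [Real.dimH_univ_eq_finrank] at this
    simpa using this
  · obtain ⟨g, hg, h⟩ := Pool.Agent.MP_6357da_an.H67.flow_lower m hm
    exact ⟨g, hg, le_antisymm h (Pool.Agent.MP_6357da_an.H36.flow_upper m hm g hg)⟩
  · rintro d ⟨g, hg, rfl⟩
    exact Pool.Agent.MP_6357da_an.H36.flow_upper m hm g hg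

end Pool.Agent.Results.MP_6357da_an.Answer
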